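import Pool.Agent.helper55.BL.Spec

set_option autoImplicit false

namespace Pool.Agent.helper55.BL

open Finset
open scoped Classical
open Pool.Agent.helper61.BM (Clo dg)

/-- reachable inside `D` -/
def CPS_reach {V : Type} (G : SimpleGraph V) (D : Finset V) (u w : V) : Prop :=
  Relation.ReflTransGen (fun a b => b ∈ D ∧ G.Adj a b) u w

lemma CPS_symm {V : Type} {G : SimpleGraph V} {D : Finset V} {u w : V} (hu : u ∈ D)
    (h : CPS_reach G D u w) : w ∈ D ∧ CPS_reach G D w u := by
  unfold CPS_reach at *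
  induction h with
  | refl => exact ⟨hu, Relation.ReflTransGen.refl⟩
  | tail _ hbc ih =>
    exact ⟨hbc.1, Relation.ReflTransGen.head ⟨ih.1, hbc.2.symm⟩ ih.2⟩

lemma CPS_trans {V : Type} {G : SimpleGraph V} {D : Finset V} {u v w : V}
    (h : CPS_reach G D u v) (h' : CPS_reach G D v w) : CPS_reach G D u w :=
  Relation.ReflTransGen.trans h h'

lemma CPS_closed {V : Type} {G : SimpleGraph V} {D B : Finset V} {u w : V}
    (hB : ∀ a ∈ B, ∀ b, b ∈ D → G.Adj a b → b ∈ B) (hu : u ∈ B) (h : CPS_reach G D u w) : w ∈ B := by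
  unfold CPS_reach at h
  induction h with
  | refl => exact hu
  | tail _ hbc ih => exact hB _ ih _ hbc.1 hbc.2

theorem CPS : CPS_stmt := by
  intro V _ G A D hAD hnb
  set comp : V → Finset V := fun v => D.filter (fun w => CPS_reach G D v w) with hcomp
  have hmem : ∀ v w, w ∈ comp v ↔ w ∈ D ∧ CPS_reach G D v w := by
    intro v w
    rw [hcomp]
    exact Finset.mem_filter
  refine ⟨D.image comp, ?_, ?_, ?_⟩
  · intro E hE
    obtain ⟨v, hv, rfl⟩ := Finset.mem_image.1 hE
    have hsub : comp v ⊆ D := fun w hw => ((hmem v w).1 hw).1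
    refine ⟨⟨⟨v, (hmem v v).2 ⟨hv, Relation.ReflTransGen.refl⟩⟩, ?_, ?_, ?_⟩, hsub⟩
    · exact Finset.disjoint_of_subset_right hsub hAD
    · intro B hBE hBne hBc
      by_contra hcon
      push Not at hcon
      apply hBc
      refine Finset.Subset.antisymm hBE fun w hw => ?_
      obtain ⟨b, hb⟩ := hBne
      have hbm := (hmem v b).1 (hBE hb)
      have hwm := (hmem v w).1 hw
      have hbv := (CPS_symm hv hbm.2).2
      have hbw := CPS_trans hbv hwm.2
      refine CPS_closed (B := B) (fun a ha c hc hac => ?_) hb hbw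
      by_contra hcB
      have ham := (hmem v a).1 (hBE ha)
      have hcm : c ∈ comp v := (hmem v c).2 ⟨hc, Relation.ReflTransGen.tail ham.2 ⟨hc, hac⟩⟩
      exact hcon a ha c hcm hcB hac
    · intro u hu w huw
      have hum := (hmem v u).1 hu
      rcases hnb u hum.1 w huw with h | h
      · left
        exact (hmem v w).2 ⟨h, Relation.ReflTransGen.tail hum.2 ⟨h, huw⟩⟩
      · right
        exact h
  · intro E hE E' hE' hne
    obtain ⟨v, hv, rfl⟩ := Finset.mem_image.1 hE
    obtain ⟨v', hv', rfl⟩ := Finset.mem_image.1 hE'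
    rw [Finset.disjoint_left]
    intro w hw hw'
    apply hne
    have h1 := (hmem v w).1 hw
    have h2 := (hmem v' w).1 hw'
    have h3 := (CPS_symm hv h1.2).2
    have h4 := (CPS_symm hv' h2.2).2
    ext x
    rw [hmem, hmem]
    constructor
    · rintro ⟨hx, hr⟩
      exact ⟨hx, CPS_trans h2.2 (CPS_trans h3 hr)⟩
    · rintro ⟨hx, hr⟩
      exact ⟨hx, CPS_trans h1.2 (CPS_trans h4 hr)⟩
  · intro v hv
    exact ⟨comp v, Finset.mem_image_of_mem _ hv, (hmem v v).2 ⟨hv, Relation.ReflTransGen.refl⟩⟩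

end Pool.Agent.helper55.BL
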